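import Pool.Agent.Work.MP_b44cb1_al.Full.Defs

/-!
# Block R1: the numbers
-/

set_option autoImplicit false

namespace Pool.Agent.Work.MP_b44cb1_al.R1

/-- The sizes of the families. -/
def kk (a : ℕ) : ℕ → ℕ
  | 0 => 1
  | (j + 1) => 2 ^ (a * kk a j - 1)

theorem kk_pos (a : ℕ) (j : ℕ) : 0 < kk a j := by
  cases j with
  | zero => exact Nat.one_pos
  | succ j => exact Nat.two_pow_pos _

theorem le_mul_sub {a x : ℕ} (ha : 2 ≤ a) (hx : 1 ≤ x) : x ≤ a * x - 1 := by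
  have : 2 * x ≤ a * x := Nat.mul_le_mul_right x ha
  omega

theorem tow_mono (d : ℕ) {x y : ℕ} (h : x ≤ y) : tow d x ≤ tow d y := by
  induction d with
  | zero => exact h
  | succ d ih => exact Nat.pow_le_pow_right (by norm_num) ih

theorem tow_le_kk {a : ℕ} (ha : 2 ≤ a) (j : ℕ) : tow j a ≤ kk a (j + 2) := by
  induction j with
  | zero =>
    show a ≤ 2 ^ (a * kk a 1 - 1)
    have h1 : 1 ≤ kk a 1 := kk_pos a 1
    have h2 : a * 1 ≤ a * kk a 1 := Nat.mul_le_mul_left a h1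
    have h3 : a - 1 < 2 ^ (a - 1) := Nat.lt_two_pow_self
    have h4 : 2 ^ (a - 1) ≤ 2 ^ (a * kk a 1 - 1) := Nat.pow_le_pow_right (by norm_num) (by omega)
    omega
  | succ j ih =>
    show 2 ^ tow j a ≤ 2 ^ (a * kk a (j + 2) - 1)
    exact Nat.pow_le_pow_right (by norm_num) (ih.trans (le_mul_sub ha (kk_pos a _)))

theorem tow_le_final {a b : ℕ} (ha : 2 ≤ a) (hab : a ≤ b) (t : ℕ) :
    tow t a ≤ (b - 1) * kk b (t + 3) := by
  have hb : 2 ≤ b := ha.trans hab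
  have h1 : tow t a ≤ kk b (t + 2) := (tow_mono t hab).trans (tow_le_kk hb t)
  have h2 : kk b (t + 2) ≤ kk b (t + 3) := by
    show kk b (t + 2) ≤ 2 ^ (b * kk b (t + 2) - 1)
    exact (le_mul_sub hb (kk_pos b _)).trans Nat.lt_two_pow_self.le
  have h3 : 1 * kk b (t + 3) ≤ (b - 1) * kk b (t + 3) := Nat.mul_le_mul_right _ (by omega)
  omega

end Pool.Agent.Work.MP_b44cb1_al.R1
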