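import Pool.Agent.Work.MP_b44cb1_al.Full.R1.Steps
import Pool.Agent.Work.MP_b44cb1_al.Full.R1.Num
import Pool.Agent.Work.MP_b44cb1_al.Full.Assembly

/-!
# Block R1: links of the first kind, assembly
-/

set_option autoImplicit false

namespace Pool.Agent.Work.MP_b44cb1_al.R1

open Subgroup
open scoped commutatorElement

variable {G : Type*} [Group G] {P : ℕ → Subgroup G} {p : ℕ → ℕ} {n : ℕ}

/-- A product of two commuting nilpotent subgroups is nilpotent. -/
theorem sup_nil [Finite G] {A B : Subgroup G} (hA : Group.IsNilpotent A)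
    (hB : Group.IsNilpotent B) (h : Cz A B) : Group.IsNilpotent (A ⊔ B : Subgroup G) := by
  have hle1 : A ≤ A ⊔ B := le_sup_left
  have hle2 : B ≤ A ⊔ B := le_sup_right
  let f : A × B →* (A ⊔ B : Subgroup G) :=
    MonoidHom.noncommCoprod (inclusion hle1) (inclusion hle2) (fun a b => by
      apply Subtype.ext
      exact h a a.2 b b.2)
  refine Group.nilpotent_of_surjective f ?_
  rintro ⟨x, hx⟩
  have hN : B ≤ normalizer (A : Set G) := by
    rw [← nz_iff]
    intro g hg d hd
    have h1 := h d hd g hg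
    rw [← h1, mul_inv_cancel_right]
    exact hd
  rw [← SetLike.mem_coe, coe_mul_of_right_le_normalizer_left A B hN] at hx
  obtain ⟨a, ha, b, hb, rfl⟩ := hx
  exact ⟨(⟨a, ha⟩, ⟨b, hb⟩), rfl⟩

theorem link_main [Finite G] (T : MTow P p n) (hodd : ∀ i < n, 2 < p i) (t : ℕ) (u : ℕ → ℕ)
    (A U : ℕ → Subgroup G) (hun : u (t + 5) < n)
    (hL : ∀ k ≤ t + 4, HLink P p (u k) (u (k + 1)) (A k) (U k)) :
    ∃ S : Finset (Subgroup G × Subgroup G), S.card ≤ t + 5 ∧ (∀ s ∈ S, CycP s) ∧
      LINK P p (u 0) (u (t + 5)) S t := by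
  classical
  -- monotonicity of `u`
  have hstep : ∀ k ≤ t + 4, u k + 2 ≤ u (k + 1) := fun k hk => (hL k hk).lt
  have hmono : ∀ j k, j < k → k ≤ t + 5 → u j < u k := by
    intro j k hjk hk
    induction k, hjk using Nat.le_induction with
    | base => exact (by omega : u j < u j + 2).trans_le (hstep j (by omega))
    | succ k hk' ih =>
      have h1 := ih (by omega)
      have h2 := hstep k (by omega)
      omega
  have hle : ∀ k ≤ t + 5, u k ≤ u (t + 5) := by
    intro k hk
    rcases hk.lt_or_eq with h | rfl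
    · exact (hmono k _ h le_rfl).le
    · exact le_rfl
  have hn' : ∀ k ≤ t + 5, u k < n := fun k hk => (hle k hk).trans_lt hun
  have hpair : ∀ k : Fin (t + 4), ∃ s : Subgroup G × Subgroup G, CycP s ∧
      ∀ Y M : Subgroup G, Y ≤ Gs P (u (k + 1)) → M ≤ Y → Nz Y M → Y ⊓ Dk P (u (k + 1)) ≤ M →
        M ⊓ s.1 ≤ s.2 → ∀ m, FamT P p (u (k + 1)) Y m → IndT P p (u (k + 2)) Y M m :=
    fun k => link_step T hodd (hL (k + 1) (by omega)) (hn' (k + 2) (by omega))
  choose s hs1 hs2 using hpair
  refine ⟨Finset.univ.image s, ?_, ?_, ?_⟩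
  · refine Finset.card_image_le.trans ?_
    rw [Finset.card_univ, Fintype.card_fin]
    omega
  · intro x hx
    obtain ⟨k, -, rfl⟩ := Finset.mem_image.1 hx
    exact hs1 k
  intro N Q hN hNn hQ hNQ hQF hQF' _ hS
  set c := u 0 with hc
  have hcn : c < n := hn' 0 (by omega)
  have hpc := T.prime c hcn
  have hFact : Fact (p c).Prime := ⟨hpc⟩
  set FQ := Fr (p c) Q with hFQ
  have hFQQ : FQ ≤ Q := fr_le _ _
  set Y : Subgroup G := N ⊔ Q with hY
  set M : Subgroup G := N ⊔ FQ with hM
  have hMY : M ≤ Y := sup_le_sup le_rfl hFQQ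
  have hPQ : IsPGroup (p c) Q := (T.pgrp c hcn).to_le hQ
  have hYnil : Group.IsNilpotent Y := sup_nil hNn hPQ.isNilpotent hNQ
  have hYG1 : Y ≤ Gs P (c + 1) :=
    sup_le (hN.trans (gs_mono P (Nat.le_succ c))) (hQ.trans (le_gs P (Nat.lt_succ_self c)))
  have hYG : ∀ k, 1 ≤ k → k ≤ t + 5 → Y ≤ Gs P (u k) := fun k h1 hk =>
    hYG1.trans (gs_mono P (hmono 0 k (by omega) hk))
  have hczN : Nz Q N := by
    intro g hg d hd
    rw [← hNQ d hd g hg, mul_inv_cancel_right]
    exact hd
  have hczF : Nz N FQ := by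
    intro g hg d hd
    rw [hNQ g hg d (hFQQ hd), mul_inv_cancel_right]
    exact hd
  have hYM : Nz Y M := by
    rw [nz_iff, hY]
    refine sup_le (nz_iff.1 ?_) (nz_iff.1 ?_)
    · exact (nz_self N).sup hczF
    · exact hczN.sup (nz_fr _ (nz_self Q))
  have hNc : ¬ p c ∣ Nat.card N := T.toWTow.cop_le hcn hN
  have hNQbot : N ⊓ Q = ⊥ := by
    apply inf_eq_bot_of_coprime
    obtain ⟨m, hm⟩ := IsPGroup.iff_card.1 hPQ
    rw [hm]
    exact Nat.Coprime.pow_right m ((hpc.coprime_iff_not_dvd.2 hNc).symm)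
  have hNn' : Q ≤ normalizer (N : Set G) := nz_iff.1 hczN
  have hsplit : ∀ y ∈ Y, ∃ a ∈ N, ∃ q ∈ Q, y = a * q := by
    intro y hy
    rw [hY, ← SetLike.mem_coe, coe_mul_of_right_le_normalizer_left N Q hNn'] at hy
    obtain ⟨a, ha, q, hq, rfl⟩ := hy
    exact ⟨a, ha, q, hq, rfl⟩
  -- `Y ⊓ D_(u k) ≤ M`
  have hYD : ∀ k, 1 ≤ k → k ≤ t + 5 → Y ⊓ Dk P (u k) ≤ M := by
    rintro k h1 hk y ⟨hy, hyD⟩
    obtain ⟨a, ha, q, hq, rfl⟩ := hsplit y hy
    refine mul_mem (mem_sup_left ha) (mem_sup_right ?_)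
    -- `q` is a power of `a * q`
    have hcomm : Commute a q := hNQ a ha q hq
    obtain ⟨m, hm⟩ := IsPGroup.iff_card.1 hPQ
    have hcop : Nat.Coprime (Nat.card N) (Nat.card Q) := by
      rw [hm]
      exact Nat.Coprime.pow_right m ((hpc.coprime_iff_not_dvd.2 hNc).symm)
    obtain ⟨e, he1, he2⟩ := Nat.chineseRemainder hcop 0 1
    have ha1 : a ^ e = 1 := by
      have h2 : a ^ Nat.card N = 1 := by
        have := pow_card_eq_one' (x := (⟨a, ha⟩ : N))
        exact congrArg Subtype.val this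
      obtain ⟨f, hf⟩ := (Nat.modEq_zero_iff_dvd).1 he1
      rw [hf, pow_mul, h2, one_pow]
    have hq1 : q ^ e = q := by
      have h2 : q ^ Nat.card Q = 1 := by
        have := pow_card_eq_one' (x := (⟨q, hq⟩ : Q))
        exact congrArg Subtype.val this
      have h3 : orderOf q ∣ Nat.card Q := orderOf_dvd_of_pow_eq_one h2
      have h4 : q ^ e = q ^ 1 := pow_eq_pow_iff_modEq.2 (he2.of_dvd h3)
      rw [h4, pow_one]
    have hqD : q ∈ Dk P (u k) := by
      have h2 : (a * q) ^ e = q := by rw [hcomm.mul_pow, ha1, hq1, one_mul]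
      rw [← h2]
      exact pow_mem hyD e
    have hck : c < u k := hmono 0 k (by omega) hk
    have h5 := T.inf_dk_le (k5p G) hck (hn' k hk) ⟨hQ hq, hqD⟩
    have hc1 : c + 1 < n := by have := hn' k hk; omega
    exact hQF ⟨hq, T.kfr c hc1 h5⟩
  -- index
  have haM : FQ.relIndex Q ≤ M.relIndex Y := by
    have h1 : M ⊓ Q = FQ := by
      apply le_antisymm
      · rintro x ⟨hx, hxQ⟩
        have hFN : FQ ≤ normalizer (N : Set G) := hFQQ.trans hNn'
        have hx' : x ∈ N ⊔ FQ := hx
        rw [← SetLike.mem_coe, coe_mul_of_right_le_normalizer_left N FQ hFN] at hx'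
        obtain ⟨a, ha, q, hq, rfl⟩ := hx'
        have h2 : a ∈ N ⊓ Q := by
          refine ⟨ha, ?_⟩
          have h3 := Q.mul_mem hxQ (inv_mem (hFQQ hq))
          simpa using h3
        rw [hNQbot, mem_bot] at h2
        simp only [h2, one_mul]
        exact hq
      · exact le_inf le_sup_right hFQQ
    have h2 : FQ.relIndex Q = M.relIndex Q := by
      rw [← h1, inf_relIndex_right]
    rw [h2]
    exact relIndex_le_of_le_right le_sup_right
      (index_ne_zero_of_finite : (M.subgroupOf Y).index ≠ 0)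
  have ha2 : 2 ≤ FQ.relIndex Q := by
    have h1 : FQ.relIndex Q ≠ 1 := by
      intro h
      rw [relIndex_eq_one] at h
      have h2 : Q = ⊥ := by
        by_contra hne
        exact fr_ne hpc hPQ hne h
      apply hQF'
      rw [h2]
      exact bot_le
    have h2 : FQ.relIndex Q ≠ 0 := (index_ne_zero_of_finite : (FQ.subgroupOf Q).index ≠ 0)
    omega
  set b := M.relIndex Y with hb
  -- the families
  have hfam : ∀ j, j ≤ t + 3 → FamT P p (u (j + 1)) Y (kk b j) := by
    intro j
    induction j with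
    | zero => intro _; exact fam_start T hodd (hn' 1 (by omega)) (hYG 1 le_rfl (by omega)) hYnil
    | succ j ih =>
      intro hj
      have h1 := ih (by omega)
      have h2 := hs2 ⟨j, by omega⟩ Y M (hYG (j + 1) (by omega) (by omega)) hMY hYM
        (hYD (j + 1) (by omega) (by omega))
        (hS _ (Finset.mem_image_of_mem s (Finset.mem_univ _))) _ h1
      exact fam_step T hodd (hn' (j + 2) (by omega)) (hYG (j + 2) (by omega) (by omega)) hYnil
        hMY hYM (kk_pos b j) h2
  have hlast := hs2 ⟨t + 3, by omega⟩ Y M (hYG (t + 4) (by omega) (by omega)) hMY hYM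
    (hYD (t + 4) (by omega) (by omega)) (hS _ (Finset.mem_image_of_mem s (Finset.mem_univ _)))
    _ (hfam (t + 3) le_rfl)
  have hdim := dim_step T hun (hYG (t + 5) (by omega) le_rfl) hMY hYM le_sup_right
    (by rw [hY]; exact sup_le (le_sup_left.trans le_sup_right) le_sup_left) hlast
  refine le_trans (Nat.pow_le_pow_right (T.prime _ hun).pos ?_) hdim
  exact tow_le_final ha2 haM t

theorem dim_main [Finite G] (T : MTow P p n) (hodd : ∀ i < n, 2 < p i) (t : ℕ) (u : ℕ → ℕ)
    (A U : ℕ → Subgroup G) (hun : u t < n)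
    (hL : ∀ k < t, HLink P p (u k) (u (k + 1)) (A k) (U k)) :
    (p (u t)) ^ tow t 1 ≤ (Fr (p (u t)) (P (u t))).relIndex (P (u t)) := by
  have hmono : ∀ j, j ≤ t → u j ≤ u t := by
    intro j hj
    obtain ⟨d, rfl⟩ := Nat.exists_eq_add_of_le hj
    have : ∀ e, e ≤ d → u j ≤ u (j + e) := by
      intro e
      induction e with
      | zero => intro _; exact le_rfl
      | succ e ih =>
        intro he
        have h1 := ih (by omega)
        have h2 := (hL (j + e) (by omega)).lt
        have h3 : j + (e + 1) = j + e + 1 := by ring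
        rw [h3]
        omega
    exact this d le_rfl
  have key : ∀ j, j ≤ t → (p (u j)) ^ tow j 1 ≤ (Fr (p (u j)) (P (u j))).relIndex (P (u j)) := by
    intro j
    induction j with
    | zero =>
      intro _
      have h0 : u 0 < n := (hmono 0 (by omega)).trans_lt hun
      have hp0 := T.prime (u 0) h0
      obtain ⟨m, hm⟩ := fr_relIndex hp0 (T.pgrp _ h0) (Fr (p (u 0)) (P (u 0)))
      rw [hm]
      apply Nat.pow_le_pow_right hp0.pos
      show 1 ≤ m
      rcases Nat.eq_zero_or_pos m with h | h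
      · exfalso
        rw [h, pow_zero, relIndex_eq_one] at hm
        exact fr_ne hp0 (T.pgrp _ h0) (T.nontriv _ h0) hm
      · exact h
    | succ j ih =>
      intro hj
      have ih := ih (by omega)
      have hn0 : u j < n := (hmono j (by omega)).trans_lt hun
      have hn1 : u (j + 1) < n := (hmono (j + 1) hj).trans_lt hun
      obtain ⟨s, -, hs⟩ := link_step T hodd (hL j (by omega)) hn1
      have hfin : Finite (VV (p (u j)) (P (u j))) := inferInstance
      have hft : Fintype (VV (p (u j)) (P (u j))) := Fintype.ofFinite _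
      obtain ⟨e⟩ : Nonempty (Fin (Nat.card (VV (p (u j)) (P (u j)))) ≃ VV (p (u j)) (P (u j))) :=
        ⟨(Finite.equivFin _).symm⟩
      choose x hx using fun i => VV.mk_surj (e i)
      have hfam : FamT P p (u j) ⊥ (Nat.card (VV (p (u j)) (P (u j)))) := by
        refine ⟨fun i => x i, fun i => (x i).2, ?_⟩
        intro i i' y hy h
        rw [mem_bot] at hy
        subst hy
        refine ⟨one_mem _, e.injective ?_⟩
        rw [← hx i, ← hx i', eq_comm, VV.mk_eq]
        simpa using h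
      obtain ⟨hF, hn, X, -, hX⟩ := hs ⊥ ⊥ bot_le le_rfl (nz_self ⊥) inf_le_left
        (inf_le_left.trans bot_le) _ hfam
      have hft2 : Fintype ((⊥ : Subgroup G) ⧸ (⊥ : Subgroup G).subgroupOf ⊥) := Fintype.ofFinite _
      have h1 := card_of_ind hX
      rw [VV.card, Fintype.card_prod, Fintype.card_fin, VV.card] at h1
      refine le_trans (Nat.pow_le_pow_right (T.prime _ hn1).pos ?_) h1
      have h2 : 1 ≤ Fintype.card ((⊥ : Subgroup G) ⧸ (⊥ : Subgroup G).subgroupOf ⊥) :=
        Fintype.card_pos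
      have h3 : tow (j + 1) 1 ≤ (Fr (p (u j)) (P (u j))).relIndex (P (u j)) :=
        le_trans (Nat.pow_le_pow_left (T.prime _ hn0).two_le _) ih
      calc tow (j + 1) 1 ≤ 1 * (Fr (p (u j)) (P (u j))).relIndex (P (u j)) := by rw [one_mul]; exact h3
        _ ≤ _ := Nat.mul_le_mul_right _ h2
  exact key t le_rfl

/-- Block R1. -/
theorem r1m (G : Type*) [Group G] [Finite G] : R1m G := by
  intro P p n T hodd t u A U
  exact ⟨fun h1 h2 => link_main T hodd t u A U h1 h2, fun h1 h2 => dim_main T hodd t u A U h1 h2⟩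

end Pool.Agent.Work.MP_b44cb1_al.R1
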