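import Mathlib

/-!
# Block R1: independent vectors from permuted independent subspaces (abstract)
-/

set_option autoImplicit false

namespace Pool.Agent.Work.MP_b44cb1_al.R1

section Sum

variable {K V Ω : Type*} [Ring K] [AddCommGroup V] [Module K V]

/-- The components of a vanishing sum vanish. -/
theorem comp_zero {C : Ω → Submodule K V} (hC : iSupIndep C) {J : Type*} [Fintype J]
    (h : J → Ω) (t : J → V) (ht : ∀ j, t j ∈ C (h j)) (h0 : ∑ j, t j = 0) (H : Ω) [DecidableEq Ω] :
    ∑ j, (if h j = H then t j else 0) = 0 := by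
  rw [iSupIndep_iff_finsetSum_eq_zero_imp_eq_zero] at hC
  have h1 : ∀ H, ∑ j, (if h j = H then t j else 0) ∈ C H := by
    intro H
    refine Submodule.sum_mem _ fun j _ => ?_
    split_ifs with hj
    · rw [← hj]; exact ht j
    · exact zero_mem _
  have h2 : ∑ H ∈ insert H (Finset.univ.image h), ∑ j, (if h j = H then t j else 0) = 0 := by
    rw [Finset.sum_comm]
    refine Eq.trans (Finset.sum_congr rfl fun j _ => ?_) h0
    rw [Finset.sum_ite_eq, if_pos]
    exact Finset.mem_insert_of_mem (Finset.mem_image_of_mem h (Finset.mem_univ j))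
  exact hC _ _ (fun H _ => h1 H) h2 H (Finset.mem_insert_self _ _)

end Sum

section Core

variable {Y V : Type*} [Group Y] [Finite Y] [AddCommGroup V] {p : ℕ} [Fact p.Prime]
  [Module (ZMod p) V] (ρ : Representation (ZMod p) Y V)

theorem smul_card_ne {n : ℕ} (hn : ¬ p ∣ n) {v : V} (h : (n : ZMod p) • v = 0) : v = 0 := by
  have h1 : (n : ZMod p) ≠ 0 := by
    intro h2
    exact hn ((ZMod.natCast_eq_zero_iff n p).1 h2)
  rcases smul_eq_zero.1 h with h2 | h2
  · exact absurd h2 h1
  · exact h2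

theorem core_ind {Ω : Type*} [MulAction Y Ω] (C : Ω → Submodule (ZMod p) V) (hC : iSupIndep C)
    (hρ : ∀ (y : Y) (H : Ω) (x : V), x ∈ C H → ρ y x ∈ C (y • H)) (M : Subgroup Y) {k : ℕ}
    (H : Fin k → Ω) (x : Fin k → V) (hx : ∀ i, x i ∈ C (H i)) (hx0 : ∀ i, x i ≠ 0)
    (hfix : ∀ i y, y • H i = H i → ρ y (x i) = x i)
    (hH : ∀ i j y, y • H i = H j → y ∈ M ∧ i = j) (hpM : ¬ p ∣ Nat.card M) :
    ∃ X : Fin k → V, (∀ i, ∀ m ∈ M, ρ m (X i) = X i) ∧
      LinearIndependent (ZMod p) (fun j : (Y ⧸ M) × Fin k => ρ j.1.out (X j.2)) := by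
  classical
  have : Fintype M := Fintype.ofFinite M
  have : Fintype (Y ⧸ M) := Fintype.ofFinite _
  refine ⟨fun i => ∑ m : M, ρ m (x i), ?_, ?_⟩
  · intro i m hm
    rw [map_sum]
    refine Fintype.sum_equiv (Equiv.mulLeft ⟨m, hm⟩) _ _ fun m' => ?_
    rw [Equiv.coe_mulLeft, ← Module.End.mul_apply, ← map_mul]
    rfl
  · rw [Fintype.linearIndependent_iff]
    intro g hg j0
    have h1 : ∑ t : ((Y ⧸ M) × Fin k) × M, g t.1 • ρ (t.1.1.out * t.2) (x t.1.2) = 0 := by
      rw [Fintype.sum_prod_type, ← hg]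
      refine Finset.sum_congr rfl fun j _ => ?_
      rw [map_sum, Finset.smul_sum]
      refine Finset.sum_congr rfl fun m _ => ?_
      rw [map_mul, Module.End.mul_apply]
    have h2 := comp_zero hC (fun t : ((Y ⧸ M) × Fin k) × M => (t.1.1.out * (t.2 : Y)) • H t.1.2)
      (fun t => g t.1 • ρ (t.1.1.out * t.2) (x t.1.2))
      (fun t => Submodule.smul_mem _ _ (hρ _ _ _ (hx _))) h1 (j0.1.out • H j0.2)
    have h3 : ∀ t : ((Y ⧸ M) × Fin k) × M,
        (if (t.1.1.out * (t.2 : Y)) • H t.1.2 = j0.1.out • H j0.2 then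
          g t.1 • ρ (t.1.1.out * t.2) (x t.1.2) else 0) =
        if t.1 = j0 ∧ (t.2 : Y) • H j0.2 = H j0.2 then g j0 • ρ j0.1.out (x j0.2) else 0 := by
      rintro ⟨⟨q, i⟩, m⟩
      by_cases hc : (q.out * (m : Y)) • H i = j0.1.out • H j0.2
      · rw [if_pos hc]
        have h4 : (j0.1.out⁻¹ * (q.out * (m : Y))) • H i = H j0.2 := by
          rw [mul_smul, hc, inv_smul_smul]
        obtain ⟨h5, rfl⟩ := hH _ _ _ h4
        have h6 : q = j0.1 := by
          have h7 : (j0.1.out)⁻¹ * q.out ∈ M := by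
            have h8 := M.mul_mem h5 (M.inv_mem m.2)
            rwa [mul_assoc, mul_assoc, mul_inv_cancel, mul_one] at h8
          have h8 : (QuotientGroup.mk (j0.1.out) : Y ⧸ M) = QuotientGroup.mk q.out :=
            QuotientGroup.eq.2 h7
          rw [QuotientGroup.out_eq', QuotientGroup.out_eq'] at h8
          exact h8.symm
        obtain ⟨q0, i⟩ := j0
        simp only at h6
        subst h6
        simp only at hc ⊢
        have h9 : (m : Y) • H i = H i := by
          rw [mul_smul] at hc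
          exact smul_left_cancel _ hc
        rw [if_pos ⟨trivial, h9⟩, map_mul, Module.End.mul_apply, hfix i m h9]
      · rw [if_neg hc, if_neg]
        rintro ⟨h5, h6⟩
        apply hc
        obtain ⟨q0, i0⟩ := j0
        simp only [Prod.mk.injEq] at h5 h6 ⊢
        obtain ⟨rfl, rfl⟩ := h5
        rw [mul_smul, h6]
    rw [Finset.sum_congr rfl fun t _ => h3 t, Fintype.sum_prod_type] at h2
    simp only at h2
    rw [Finset.sum_eq_single j0 (fun j _ hj => Finset.sum_eq_zero fun m _ => by
      rw [if_neg]; exact fun h => hj h.1) (fun h => absurd (Finset.mem_univ _) h)] at h2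
    simp only [true_and] at h2
    rw [← Finset.sum_filter, Finset.sum_const] at h2
    let S : Subgroup M := (MulAction.stabilizer Y (H j0.2)).subgroupOf M
    have h4 : (Finset.univ.filter fun m : M => (m : Y) • H j0.2 = H j0.2).card = Nat.card S := by
      rw [Nat.card_eq_fintype_card, Fintype.card_subtype]
      congr 1
    rw [h4, ← Nat.cast_smul_eq_nsmul (ZMod p)] at h2
    have h5 : ¬ p ∣ Nat.card S := fun h => hpM (h.trans (Subgroup.card_subgroup_dvd_card S))
    have h6 := smul_card_ne h5 h2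
    rcases smul_eq_zero.1 h6 with h7 | h7
    · exact h7
    · exfalso
      apply hx0 j0.2
      have h8 := congrArg (ρ (j0.1.out)⁻¹) h7
      rw [map_zero, ← Module.End.mul_apply, ← map_mul, inv_mul_cancel, map_one] at h8
      exact h8

end Core

end Pool.Agent.Work.MP_b44cb1_al.R1
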