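import Pool.Agent.Work.MP_b44cb1_al.Full.R1.Core

/-!
# Block R1: many vectors with minimal stabilisers, and dimensions (abstract)
-/

set_option autoImplicit false

namespace Pool.Agent.Work.MP_b44cb1_al.R1

variable {Y V : Type*} [Group Y] [Finite Y] [AddCommGroup V] {p : ℕ} [Fact p.Prime]
  [Module (ZMod p) V] (ρ : Representation (ZMod p) Y V)

/-- Translates of `X i`. -/
noncomputable def zz (M : Subgroup Y) {k : ℕ} (X : Fin k → V) (j : (Y ⧸ M) × Fin k) : V :=
  ρ j.1.out (X j.2)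

theorem zz_act {M : Subgroup Y} {k : ℕ} {X : Fin k → V} (hX : ∀ i, ∀ m ∈ M, ρ m (X i) = X i)
    (y : Y) (q : Y ⧸ M) (i : Fin k) : ρ y (zz ρ M X (q, i)) = zz ρ M X (y • q, i) := by
  unfold zz
  simp only
  have h1 : (y • q).out⁻¹ * (y * q.out) ∈ M := by
    rw [← QuotientGroup.eq, QuotientGroup.out_eq']
    conv_lhs => rw [← QuotientGroup.out_eq' q]
    rfl
  have h2 : y * q.out = (y • q).out * ((y • q).out⁻¹ * (y * q.out)) := by group
  rw [← Module.End.mul_apply, ← map_mul, h2, map_mul, Module.End.mul_apply, hX i _ h1]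

theorem zz_one {M : Subgroup Y} {k : ℕ} {X : Fin k → V} (hX : ∀ i, ∀ m ∈ M, ρ m (X i) = X i)
    (i : Fin k) : zz ρ M X (QuotientGroup.mk 1, i) = X i := by
  unfold zz
  simp only
  apply hX
  have h1 : (QuotientGroup.mk ((QuotientGroup.mk (1 : Y) : Y ⧸ M).out) : Y ⧸ M) =
      QuotientGroup.mk 1 := QuotientGroup.out_eq' _
  have h2 := QuotientGroup.eq.1 h1
  rw [mul_one] at h2
  simpa using M.inv_mem h2

theorem fam_of_ind (hp2 : p ≠ 2) (M : Subgroup Y) [hM : M.Normal] {k : ℕ} (hk : 0 < k)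
    (X : Fin k → V) (hX : ∀ i, ∀ m ∈ M, ρ m (X i) = X i)
    (hind : LinearIndependent (ZMod p) (zz ρ M X)) (d : V)
    (hd : ∀ y, ρ y d = d → ρ y = 1) (hpM : ¬ p ∣ Nat.card M) :
    ∃ v : Fin (2 ^ (Nat.card (Y ⧸ M) * k - 1)) → V,
      ∀ i j y, ρ y (v i) = v j → ρ y = 1 ∧ i = j := by
  classical
  have : Fintype M := Fintype.ofFinite M
  have : Fintype (Y ⧸ M) := Fintype.ofFinite _
  let j₀ : (Y ⧸ M) × Fin k := (QuotientGroup.mk 1, ⟨0, hk⟩)
  let c : ({j : (Y ⧸ M) × Fin k // j ≠ j₀} → Bool) → (Y ⧸ M) × Fin k → ZMod p := fun ε j =>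
    if h : j = j₀ then 2 else (if ε ⟨j, h⟩ then 1 else 0)
  have h2p : (2 : ZMod p) ≠ 0 := by
    intro h
    have h1 : ((2 : ℕ) : ZMod p) = 0 := by exact_mod_cast h
    rw [ZMod.natCast_eq_zero_iff] at h1
    exact hp2 ((Nat.prime_dvd_prime_iff_eq (Fact.out : p.Prime) Nat.prime_two).1 h1)
  have h21 : (2 : ZMod p) ≠ 1 := by
    intro h
    have h1 : (1 : ZMod p) = 0 := by
      have h2 : (2 : ZMod p) = 1 + 1 := by norm_num
      rw [h2] at h
      simpa using h
    exact one_ne_zero h1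
  have hc0 : ∀ ε, c ε j₀ = 2 := fun ε => dif_pos rfl
  have hc2 : ∀ ε j, c ε j = 2 → j = j₀ := by
    intro ε j hj
    by_contra hne
    simp only [c, dif_neg hne] at hj
    split_ifs at hj
    · exact h21 hj.symm
    · exact h2p hj.symm
  have hcinj : ∀ ε ε', c ε = c ε' → ε = ε' := by
    intro ε ε' h
    funext ⟨j, hj⟩
    have h1 := congrFun h j
    simp only [c, dif_neg hj] at h1
    cases h2 : ε ⟨j, hj⟩ <;> cases h3 : ε' ⟨j, hj⟩ <;> simp [h2, h3] at h1 ⊢
  let w : ({j : (Y ⧸ M) × Fin k // j ≠ j₀} → Bool) → V := fun ε =>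
    ∑ j, c ε j • zz ρ M X j
  let E : V →ₗ[ZMod p] V := ∑ m : M, ρ (m : Y)
  let s : ZMod p := (Nat.card M : ZMod p)
  have hE : ∀ v, E v = ∑ m : M, ρ (m : Y) v := fun v => by simp [E]
  have hEfix : ∀ v, (∀ m ∈ M, ρ m v = v) → E v = s • v := by
    intro v hv
    rw [hE, Finset.sum_congr rfl fun (m : M) _ => hv m m.2, Finset.sum_const,
      Nat.cast_smul_eq_nsmul, Nat.card_eq_fintype_card]
    rfl
  have hEM : ∀ v, ∀ m ∈ M, ρ m (E v) = E v := by
    intro v m hm
    rw [hE, map_sum]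
    refine Fintype.sum_equiv (Equiv.mulLeft ⟨m, hm⟩) _ _ fun m' => ?_
    rw [Equiv.coe_mulLeft, ← Module.End.mul_apply, ← map_mul]
    rfl
  have hEcomm : ∀ y v, E (ρ y v) = ρ y (E v) := by
    intro y v
    rw [hE, hE, map_sum]
    refine Fintype.sum_equiv (MulAut.conjNormal (H := M) y⁻¹).toEquiv _ _ fun m => ?_
    rw [← Module.End.mul_apply, ← map_mul, ← Module.End.mul_apply, ← map_mul]
    congr 2
    show (m : Y) * y = y * ((MulAut.conjNormal y⁻¹ m : M) : Y)
    rw [MulAut.conjNormal_apply]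
    group
  have hs : ∀ v : V, s • v = 0 → v = 0 := fun v hv => smul_card_ne hpM hv
  let d₂ : V := s • d - E d
  have hEd₂ : E d₂ = 0 := by
    show E (s • d - E d) = 0
    rw [map_sub, map_smul, hEfix (E d) (hEM d), sub_self]
  have hMq : ∀ m ∈ M, ∀ q : Y ⧸ M, m • q = q := by
    intro m hm q
    obtain ⟨g, rfl⟩ := QuotientGroup.mk_surjective q
    show (QuotientGroup.mk (m * g) : Y ⧸ M) = QuotientGroup.mk g
    rw [eq_comm, QuotientGroup.eq]
    have := hM.conj_mem m hm g⁻¹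
    rw [inv_inv] at this
    rwa [← mul_assoc]
  have hwM : ∀ ε, ∀ m ∈ M, ρ m (w ε) = w ε := by
    intro ε m hm
    show ρ m (∑ j, c ε j • zz ρ M X j) = ∑ j, c ε j • zz ρ M X j
    rw [map_sum]
    refine Finset.sum_congr rfl fun j _ => ?_
    obtain ⟨q, i⟩ := j
    rw [map_smul, zz_act ρ hX, hMq m hm]
  have key : ∀ ε ε' y, ρ y (d₂ + w ε) = d₂ + w ε' → ρ y = 1 ∧ ε = ε' := by
    intro ε ε' y hy
    have h1 : ρ y (w ε) = w ε' := by
      have h2 := congrArg E hy
      rw [hEcomm, map_add, hEd₂, zero_add, hEfix _ (hwM ε), map_add, hEd₂, zero_add,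
        hEfix _ (hwM ε'), map_smul] at h2
      have h3 : s • (ρ y (w ε) - w ε') = 0 := by rw [smul_sub, h2, sub_self]
      exact sub_eq_zero.1 (hs _ h3)
    have h2 : ρ y d₂ = d₂ := by
      rw [map_add, h1] at hy
      exact add_right_cancel hy
    -- compare coefficients
    have h3 : ρ y (w ε) = ∑ j : (Y ⧸ M) × Fin k, c ε (y⁻¹ • j.1, j.2) • zz ρ M X j := by
      show ρ y (∑ j, c ε j • zz ρ M X j) = _
      rw [map_sum]
      refine Fintype.sum_equiv ((MulAction.toPerm y).prodCongr (Equiv.refl _)) _ _ fun j => ?_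
      obtain ⟨q, i⟩ := j
      rw [map_smul, zz_act ρ hX]
      simp
    rw [h3] at h1
    have h4 : ∀ j : (Y ⧸ M) × Fin k, c ε (y⁻¹ • j.1, j.2) = c ε' j := by
      have h5 := Fintype.linearIndependent_iff.1 hind
        (fun j => c ε (y⁻¹ • j.1, j.2) - c ε' j) (by
          simp only [sub_smul, Finset.sum_sub_distrib]
          rw [h1]
          exact sub_self _)
      exact fun j => sub_eq_zero.1 (h5 j)
    have h5 : y • (QuotientGroup.mk (1 : Y) : Y ⧸ M) = QuotientGroup.mk 1 := by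
      have h6 := h4 (y • (QuotientGroup.mk (1 : Y) : Y ⧸ M), ⟨0, hk⟩)
      simp only [inv_smul_smul] at h6
      have h7 : c ε' (y • (QuotientGroup.mk (1 : Y) : Y ⧸ M), ⟨0, hk⟩) = 2 := by
        rw [← h6]
        exact hc0 ε
      have h8 := hc2 _ _ h7
      exact congrArg Prod.fst h8
    have hyM : y ∈ M := by
      have h6 : (QuotientGroup.mk (y * 1) : Y ⧸ M) = QuotientGroup.mk 1 := h5
      have h7 := QuotientGroup.eq.1 h6.symm
      simpa using h7
    refine ⟨hd y ?_, hcinj _ _ ?_⟩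
    · have h6 : s • (ρ y d - d) = 0 := by
        have h7 : s • d = d₂ + E d := by simp [d₂]
        have h8 : ρ y (s • d) = s • d := by rw [h7, map_add, h2, hEM d y hyM]
        rw [map_smul] at h8
        rw [smul_sub, h8, sub_self]
      exact sub_eq_zero.1 (hs _ h6)
    · funext j
      rw [← h4 j, hMq _ (M.inv_mem hyM)]
  have hcard : Fintype.card ({j : (Y ⧸ M) × Fin k // j ≠ j₀} → Bool) =
      2 ^ (Nat.card (Y ⧸ M) * k - 1) := by
    rw [Fintype.card_fun, Fintype.card_bool, Fintype.card_subtype_compl, Fintype.card_prod,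
      Fintype.card_fin, Fintype.card_subtype_eq, Nat.card_eq_fintype_card]
  let e := (Fintype.equivFinOfCardEq hcard).symm
  refine ⟨fun i => d₂ + w (e i), fun i j y h => ?_⟩
  obtain ⟨h1, h2⟩ := key _ _ _ h
  exact ⟨h1, e.injective h2⟩

theorem dim_of_ind [Finite V] (M : Subgroup Y) {k : ℕ} (X : Fin k → V)
    (hX : ∀ i, ∀ m ∈ M, ρ m (X i) = X i) (hind : LinearIndependent (ZMod p) (zz ρ M X))
    (W : Submodule (ZMod p) V) (hW : ∀ i y, ρ y (X i) - X i ∈ W) :
    p ^ ((Nat.card (Y ⧸ M) - 1) * k) ≤ Nat.card W := by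
  classical
  have : Fintype (Y ⧸ M) := Fintype.ofFinite _
  have : Fintype W := Fintype.ofFinite _
  let o : Y ⧸ M := QuotientGroup.mk 1
  let u : {q : Y ⧸ M // q ≠ o} × Fin k → W := fun t =>
    ⟨zz ρ M X (t.1, t.2) - X t.2, hW _ _⟩
  have hli : LinearIndependent (ZMod p) u := by
    rw [Fintype.linearIndependent_iff]
    intro g hg
    have h1 : ∑ t : {q : Y ⧸ M // q ≠ o} × Fin k, g t • (zz ρ M X (t.1, t.2) - X t.2) = 0 := by
      have h2 := congrArg (Submodule.subtype W) hg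
      rw [map_sum, map_zero] at h2
      exact h2
    let G : (Y ⧸ M) × Fin k → ZMod p := fun j =>
      if h : j.1 = o then - ∑ q : {q : Y ⧸ M // q ≠ o}, g (q, j.2) else g (⟨j.1, h⟩, j.2)
    have h2 : ∑ j, G j • zz ρ M X j = 0 := by
      rw [Fintype.sum_prod_type_right]
      rw [Fintype.sum_prod_type_right] at h1
      rw [← h1]
      refine Finset.sum_congr rfl fun i _ => ?_
      rw [← Finset.sum_add_sum_compl {o}, Finset.sum_singleton]
      have h3 : G (o, i) = - ∑ q : {q : Y ⧸ M // q ≠ o}, g (q, i) := dif_pos rfl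
      have h4 : ∑ q ∈ ({o} : Finset (Y ⧸ M))ᶜ, G (q, i) • zz ρ M X (q, i) =
          ∑ q : {q : Y ⧸ M // q ≠ o}, g (q, i) • zz ρ M X (q.1, i) := by
        rw [Finset.sum_subtype (({o} : Finset (Y ⧸ M))ᶜ) (p := fun q => q ≠ o) (by simp)]
        refine Finset.sum_congr rfl fun q _ => ?_
        congr 1
        exact dif_neg q.2
      rw [h3, h4, zz_one ρ hX i, neg_smul, Finset.sum_smul]
      simp only [smul_sub, Finset.sum_sub_distrib]
      abel
    intro t
    have h3 := Fintype.linearIndependent_iff.1 hind G h2 (t.1.1, t.2)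
    have h4 : G (t.1.1, t.2) = g t := dif_neg t.1.2
    rw [← h4]
    exact h3
  have h1 := hli.fintype_card_le_finrank
  rw [Fintype.card_prod, Fintype.card_fin, Fintype.card_subtype_compl,
    Fintype.card_subtype_eq] at h1
  have h2 : Nat.card W = p ^ Module.finrank (ZMod p) W := by
    have h3 := Module.card_eq_pow_finrank (K := ZMod p) (V := W)
    rw [ZMod.card] at h3
    rw [Nat.card_eq_fintype_card]
    exact h3
  rw [h2, Nat.card_eq_fintype_card]
  exact Nat.pow_le_pow_right (Fact.out : p.Prime).pos h1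

/-- A family of independent vectors gives a lower bound for the cardinality. -/
theorem card_of_ind [Finite V] {ι : Type*} [Fintype ι] {u : ι → V}
    (hli : LinearIndependent (ZMod p) u) : p ^ Fintype.card ι ≤ Nat.card V := by
  classical
  have : Fintype V := Fintype.ofFinite _
  have h1 := hli.fintype_card_le_finrank
  have h2 : Nat.card V = p ^ Module.finrank (ZMod p) V := by
    have h3 := Module.card_eq_pow_finrank (K := ZMod p) (V := V)
    rw [ZMod.card] at h3
    rw [Nat.card_eq_fintype_card]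
    exact h3
  rw [h2]
  exact Nat.pow_le_pow_right (Fact.out : p.Prime).pos h1

end Pool.Agent.Work.MP_b44cb1_al.R1
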