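import Pool.Agent.Work.MP_b44cb1_al.Full.R1.Rep
import Pool.Agent.Work.MP_b44cb1_al.Full.Kit.HypDec
import Pool.Agent.Work.MP_b44cb1_al.Full.Kit.Mono
import Pool.Agent.Work.MP_b44cb1_al.Full.Kit.Cop
import Pool.Agent.Work.MP_b44cb1_al.Full.MT.Dk
import Pool.Agent.Work.MP_b44cb1_al.Full.L.Orb

/-!
# Block R1: one link of the first kind
-/

set_option autoImplicit false

namespace Pool.Agent.Work.MP_b44cb1_al.R1

open Subgroup
open scoped commutatorElement

variable {G : Type*} [Group G] {P : ℕ → Subgroup G} {p : ℕ → ℕ} {n : ℕ}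

/-- `k` elements of `P c` in different `Y`-orbits modulo `Fr`, whose stabilisers modulo `Fr` are
contained in `D_c`. -/
def FamT (P : ℕ → Subgroup G) (p : ℕ → ℕ) (c : ℕ) (Y : Subgroup G) (k : ℕ) : Prop :=
  ∃ v : Fin k → G, (∀ i, v i ∈ P c) ∧ ∀ i j, ∀ y ∈ Y,
    (v j)⁻¹ * (y * v i * y⁻¹) ∈ Fr (p c) (P c) → y ∈ Dk P c ∧ i = j

/-- `k` vectors of `V_u` fixed by `M` whose translates by `Y / M` are linearly independent. -/
def IndT (P : ℕ → Subgroup G) (p : ℕ → ℕ) (u : ℕ) (Y M : Subgroup G) (k : ℕ) : Prop :=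
  ∃ (_ : Fact (p u).Prime) (hn : Nz Y (P u)) (X : Fin k → VV (p u) (P u)),
    (∀ i, ∀ m ∈ M.subgroupOf Y, rep (p u) hn m (X i) = X i) ∧
      LinearIndependent (ZMod (p u)) (zz (rep (p u) hn) (M.subgroupOf Y) X)

theorem k5p (G : Type*) [Group G] [Finite G] : K5p G := by
  intro p P g hp hP hn hc h
  exact trivFr hp P hP g hn hc h

theorem gs_odd [Finite G] (T : WTow P p n) (hodd : ∀ i < n, 2 < p i) {c : ℕ} (hc : c ≤ n) :
    Odd (Nat.card (Gs P c)) := by
  induction c with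
  | zero =>
    rw [gs_zero, Subgroup.card_bot]
    exact odd_one
  | succ c ih =>
    have hcn : c < n := by omega
    have ih := ih (by omega)
    rw [← Nat.not_even_iff_odd, even_iff_two_dvd]
    intro h2
    have : Fact (p c).Prime := ⟨T.prime c hcn⟩
    have h3 : Odd (Nat.card (P c)) := by
      obtain ⟨k, hk⟩ := IsPGroup.iff_card.1 (T.pgrp c hcn)
      rw [hk]
      exact ((T.prime c hcn).odd_of_ne_two (hodd c hcn).ne').pow
    -- `Gs P c × P c → Gs P (c+1)` surjective with fibres of constant size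
    have hN : (P c).subgroupOf (Gs P (c + 1)) |>.Normal :=
      (BL.gs_nz_self T hcn).subgroupOf_normal
    have hle : P c ≤ Gs P (c + 1) := le_gs P (Nat.lt_succ_self c)
    have h4 : Nat.card (Gs P (c + 1)) =
        (P c).relIndex (Gs P (c + 1)) * Nat.card ((P c).subgroupOf (Gs P (c + 1))) :=
      ((P c).subgroupOf (Gs P (c + 1))).index_mul_card.symm
    have h5 : Nat.card ((P c).subgroupOf (Gs P (c + 1))) = Nat.card (P c) :=
      Nat.card_congr (subgroupOfEquivOfLe hle).toEquiv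
    have h6 : (P c).relIndex (Gs P (c + 1)) ∣ Nat.card (Gs P c) := by
      let f : Gs P c →* Gs P (c + 1) ⧸ (P c).subgroupOf (Gs P (c + 1)) :=
        (QuotientGroup.mk' _).comp (inclusion (gs_mono P (Nat.le_succ c)))
      refine Subgroup.card_dvd_of_surjective f ?_
      intro q
      obtain ⟨⟨x, hx⟩, rfl⟩ := QuotientGroup.mk'_surjective _ q
      obtain ⟨g, hg, v, hv, rfl⟩ := BL.mem_gs_succ T hcn hx
      refine ⟨⟨g, hg⟩, ?_⟩
      show (QuotientGroup.mk _ : Gs P (c + 1) ⧸ (P c).subgroupOf (Gs P (c + 1))) =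
        QuotientGroup.mk _
      rw [QuotientGroup.eq, mem_subgroupOf]
      show g⁻¹ * (g * v) ∈ P c
      rwa [inv_mul_cancel_left]
    rw [h4, h5] at h2
    rcases (Nat.Prime.dvd_mul Nat.prime_two).1 h2 with h | h
    · exact (Nat.not_even_iff_odd.2 ih) (even_iff_two_dvd.2 (h.trans h6))
    · exact (Nat.not_even_iff_odd.2 h3) (even_iff_two_dvd.2 h)

theorem conj_cent {g x : G} {U : Subgroup G} (hx : x ∈ centralizer (U : Set G)) :
    g * x * g⁻¹ ∈ centralizer (cj g U : Set G) := by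
  rw [← BL.cj_centralizer]
  exact conj_mem_cj hx

theorem link_step [Finite G] (T : MTow P p n) (hodd : ∀ i < n, 2 < p i) {c u : ℕ}
    {A U : Subgroup G} (hL : HLink P p c u A U) (hun : u < n) :
    ∃ s : Subgroup G × Subgroup G, CycP s ∧ ∀ Y M : Subgroup G, Y ≤ Gs P c → M ≤ Y → Nz Y M →
      Y ⊓ Dk P c ≤ M → M ⊓ s.1 ≤ s.2 → ∀ k, FamT P p c Y k → IndT P p u Y M k := by
  obtain ⟨b, rfl⟩ : ∃ b, u = b + 1 := ⟨u - 1, by have := hL.lt; omega⟩
  have hlt : c < b := by have := hL.lt; omega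
  have hbn : b < n := by omega
  have hcn : c < n := by omega
  have hAP : A ≤ P b := hL.le
  have hKU : Kr P b ≤ U := hL.ker_le
  have hUA : U ≤ A := hL.hyp_le
  have hKA : Kr P b ≤ A := hKU.trans hUA
  have hcen : ⁅A, P b⁆ ≤ Kr P b := hL.cen
  have hexp : ∀ x ∈ A, x ^ p b ∈ Kr P b := hL.expo
  have hidx : U.relIndex A = p b := hL.hyp
  have hfixU := hL.fix
  have hpu := T.prime (b + 1) hun
  have hpb := T.prime b hbn
  have hpc := T.prime c hcn
  have hUH : U ∈ Hyp (Kr P b) A (p b) := ⟨hKU, hUA, hidx⟩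
  -- `C_{P u}(A) ≤ Fr`
  have hfixA : P (b + 1) ⊓ centralizer (A : Set G) ≤ Fr (p (b + 1)) (P (b + 1)) := by
    intro w hw
    by_contra hwF
    have h1 := BL.irr_cen T hun hAP hL.nz hw.1 hwF (fun a ha => by
      rw [commutatorElement_eq_one_iff_mul_comm.2 ((mem_centralizer_iff.1 hw.2) a ha).symm]
      exact one_mem _)
    have h2 : U = A := le_antisymm hUA (h1.trans hKU)
    rw [h2, relIndex_self] at hidx
    exact hpb.one_lt.ne hidx
  -- the stabiliser and the pair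
  let B := stabSub (Dk P c) U
  have hBD : B ≤ Dk P c := fun y hy => hy.1
  have hBG : B ≤ Gs P c := hBD.trans (dk_le P c)
  have hGu : Gs P c ≤ Gs P (b + 1) := gs_mono P (by omega)
  have hBP : Nz B (P (b + 1)) := (T.norm _ hun).mono (hBG.trans hGu)
  have hBW : Nz B (P (b + 1) ⊓ centralizer (U : Set G)) := by
    refine hBP.inf ?_
    intro g hg x hx
    have h1 := conj_cent (g := g) hx
    rwa [hg.2] at h1
  have hBnil : Group.IsNilpotent B := by
    have h1 := T.dk_nil (k5p G) hcn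
    have h2 : Group.IsNilpotent (B.subgroupOf (Dk P c)) := inferInstance
    exact (Group.isNilpotent_congr (subgroupOfEquivOfLe hBD)).1 h2
  have hBodd : Odd (Nat.card B) := by
    obtain ⟨m, hm⟩ := Subgroup.card_dvd_of_le hBG
    have h1 := gs_odd T.toWTow hodd (c := c) (by omega)
    rw [hm] at h1
    exact Nat.Odd.of_mul_left h1
  have hBc : ¬ p (b + 1) ∣ Nat.card B := T.toWTow.cop_le hun (hBG.trans hGu)
  obtain ⟨s, hs1, hs2, hs3⟩ := mono_fr hpu B (P (b + 1)) (P (b + 1) ⊓ centralizer (U : Set G))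
    hBnil hBodd hBc (T.pgrp _ hun) inf_le_left hBP hBW hfixU
  refine ⟨s, hs1, ?_⟩
  intro Y M hY hMY hYM hYD hMs k ⟨v, hv, hvY⟩
  have hYu : Y ≤ Gs P (b + 1) := hY.trans hGu
  have hn : Nz Y (P (b + 1)) := (T.norm _ hun).mono hYu
  have hFact : Fact (p (b + 1)).Prime := ⟨hpu⟩
  -- the fixed vector
  let S : Subgroup G := Y ⊓ B
  have hSM : S ≤ M := fun y hy => hYD ⟨hy.1, hBD hy.2⟩
  obtain ⟨x₀, hx₀, hx₀F, hx₀S⟩ := hs3 S inf_le_right (fun y hy => hMs ⟨hSM hy.1, hy.2⟩)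
  -- Glauberman
  have hYW : Nz Y (P c) := (T.norm c hcn).mono hY
  let Y₁ := orbSub (P c) Y U hYW
  have hY₁Y : Y₁ ≤ Y := fun y hy => hy.1
  obtain ⟨z, hz, hzf⟩ := glauC_cj hpc (P c) Y₁ U (T.pgrp c hcn) (hYW.mono hY₁Y)
    (T.toWTow.cop_le hcn (hY₁Y.trans hY)) (fun y hy => hy.2)
  -- key computation
  have key : ∀ i j, ∀ y ∈ Y, cj y (cj (v i * z) U) = cj (v j * z) U →
      (y ∈ Dk P c ∧ cj y U = U) ∧ i = j := by
    intro i j y hy h
    have hyw : y * (v i * z) * y⁻¹ ∈ P c := hYW y hy _ (mul_mem (hv i) hz)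
    have hy1 : y ∈ Y₁ := by
      refine ⟨hy, (y * (v i * z) * y⁻¹)⁻¹ * (v j * z),
        mul_mem (inv_mem hyw) (mul_mem (hv j) hz), ?_⟩
      rw [cj_mul _ (v j * z), ← h, ← cj_mul, ← cj_mul]
      congr 1
      group
    have h1 : cj y (cj z U) = cj z U := hzf y hy1
    have h2 : cj (z⁻¹ * ((v j)⁻¹ * (y * v i * y⁻¹)) * z) U = U := by
      have e1 : z⁻¹ * ((v j)⁻¹ * (y * v i * y⁻¹)) * z =
          (v j * z)⁻¹ * (y * (v i * (y⁻¹ * z))) := by group
      have e2 : cj (y⁻¹ * z) U = cj z U := by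
        have e3 := cj_inv_cj y (cj z U)
        rw [h1] at e3
        rw [cj_mul]
        exact e3
      rw [e1, cj_mul, cj_mul y, cj_mul (v i), e2, ← cj_mul (v i), h, ← cj_mul, inv_mul_cancel,
        cj_one]
    have h3 : (v j)⁻¹ * (y * v i * y⁻¹) ∈ P c :=
      mul_mem (inv_mem (hv j)) (hYW y hy _ (hv i))
    have h4 := hL.stab _ (mul_mem (mul_mem (inv_mem hz) h3) hz) h2
    have h5 : (v j)⁻¹ * (y * v i * y⁻¹) ∈ Fr (p c) (P c) := by
      have h6 := nz_fr (p c) (nz_self (P c)) z hz _ h4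
      have e1 : z * (z⁻¹ * ((v j)⁻¹ * (y * v i * y⁻¹)) * z) * z⁻¹ =
          (v j)⁻¹ * (y * v i * y⁻¹) := by group
      rwa [e1] at h6
    obtain ⟨h6, h7⟩ := hvY i j y hy h5
    refine ⟨⟨h6, ?_⟩, h7⟩
    have h8 : y * z = z * y := dk_comm h6 hz
    rw [← cj_mul, h8, cj_mul] at h1
    exact cj_inj.1 h1
  -- the vectors
  have hvz : ∀ i, v i * z ∈ P c := fun i => mul_mem (hv i) hz
  have hvzG : ∀ i, v i * z ∈ Gs P (b + 1) := fun i => le_gs P (by omega) (hvz i)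
  have hxP : ∀ i, (v i * z) * x₀ * (v i * z)⁻¹ ∈ P (b + 1) := fun i =>
    T.norm _ hun _ (hvzG i) _ hx₀.1
  have hxC : ∀ i, (v i * z) * x₀ * (v i * z)⁻¹ ∈ centralizer (cj (v i * z) U : Set G) :=
    fun i => conj_cent hx₀.2
  have hxF : ∀ i, (v i * z) * x₀ * (v i * z)⁻¹ ∉ Fr (p (b + 1)) (P (b + 1)) := by
    intro i h
    apply hx₀F
    have h1 := nz_fr (p (b + 1)) (T.norm _ hun) (v i * z)⁻¹ (inv_mem (hvzG i)) _ h
    have e1 : (v i * z)⁻¹ * ((v i * z) * x₀ * (v i * z)⁻¹) * (v i * z)⁻¹⁻¹ = x₀ := by group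
    rwa [e1] at h1
  have hHyp : ∀ y ∈ Gs P (b + 1), ∀ H, H ∈ Hyp (Kr P b) A (p b) →
      cj y H ∈ Hyp (Kr P b) A (p b) := by
    rintro y hy H ⟨h1, h2, h3⟩
    have eK := cj_eq_of_mem (BL.kr_nz T.toWTow hun) hy
    have eA := cj_eq_of_mem hL.nz hy
    refine ⟨?_, ?_, ?_⟩
    · rw [← eK]; exact cj_mono h1
    · rw [← eA]; exact cj_mono h2
    · have h4 := BL.relIndex_cj y H A
      rw [eA] at h4
      rw [h4, h3]
  classical
  let iA : MulAction Y (Subgroup G) :=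
    { smul := fun y H => cj (y : G) H
      one_smul := cj_one
      mul_smul := fun a b H => cj_mul (a : G) b H }
  have hsm : ∀ (y : Y) (H : Subgroup G), y • H = cj (y : G) H := fun _ _ => rfl
  let C : Subgroup G → Submodule (ZMod (p (b + 1))) (VV (p (b + 1)) (P (b + 1))) := fun H =>
    if H ∈ Hyp (Kr P b) A (p b) then sp (p (b + 1)) (P (b + 1)) (centralizer (H : Set G)) else ⊥
  have hC1 : ∀ H, H ∈ Hyp (Kr P b) A (p b) →
      C H = sp (p (b + 1)) (P (b + 1)) (centralizer (H : Set G)) := fun H hH => if_pos hH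
  have hC2 : ∀ H, H ∉ Hyp (Kr P b) A (p b) → C H = ⊥ := fun H hH => if_neg hH
  have hAb : A ≤ Gs P (b + 1) := hAP.trans (le_gs P (Nat.lt_succ_self b))
  have hAn : Nz A (P (b + 1)) := (T.norm _ hun).mono hAb
  have hind : iSupIndep C := by
    rw [iSupIndep_def]
    intro H₀
    rw [Submodule.disjoint_def]
    intro w hw hw'
    by_cases hH₀ : H₀ ∈ Hyp (Kr P b) A (p b)
    · rw [hC1 _ hH₀] at hw
      obtain ⟨x, hx, rfl⟩ := hw
      have h1 : ⨆ H, ⨆ (_ : H ≠ H₀), C H ≤ sp (p (b + 1)) (P (b + 1))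
          ((⨆ H ∈ {H | H ∈ Hyp (Kr P b) A (p b) ∧ H ≠ H₀},
            P (b + 1) ⊓ centralizer (H : Set G)) ⊔ Fr (p (b + 1)) (P (b + 1))) := by
        refine iSup₂_le fun H hH => ?_
        by_cases hH' : H ∈ Hyp (Kr P b) A (p b)
        · rw [hC1 _ hH']
          rintro _ ⟨x, hx, rfl⟩
          refine ⟨x, mem_sup_left ?_, rfl⟩
          exact (le_iSup₂ (f := fun (H : Subgroup G)
            (_ : H ∈ {H | H ∈ Hyp (Kr P b) A (p b) ∧ H ≠ H₀}) =>
            P (b + 1) ⊓ centralizer (H : Set G)) H ⟨hH', hH⟩) ⟨x.2, hx⟩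
        · rw [hC2 _ hH']
          exact bot_le
      obtain ⟨x', hx', hxx⟩ := h1 hw'
      have h2 := VV.mk_eq.1 hxx
      rw [← hxx, VV.mk_eq_zero]
      refine hyp_ind hpb hpu (BL.p_ne T (Nat.lt_succ_self b) hun) A (Kr P b) (P (b + 1))
        (Fr (p (b + 1)) (P (b + 1))) ((T.pgrp b hbn).to_le hAP) (T.pgrp _ hun) hKA
        (fun x hx y hy => kr_comm hx hy) ((commutator_mono le_rfl hAP).trans hcen) hexp
        (fr_le _ _) (nz_fr _ (nz_self _)) hAn (nz_fr _ hAn) (comm_le_fr _ _) hfixA H₀ hH₀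
        {H | H ∈ Hyp (Kr P b) A (p b) ∧ H ≠ H₀} (fun H hH => hH) ⟨?_, hx'⟩
      have e1 : (x' : G) = x * ((x' : G)⁻¹ * x)⁻¹ := by group
      rw [e1]
      exact mul_mem (mem_sup_left ⟨x.2, hx⟩) (mem_sup_right (inv_mem h2))
    · rw [hC2 _ hH₀] at hw
      exact (Submodule.mem_bot _).1 hw
  obtain ⟨X, hX1, hX2⟩ := core_ind (rep (p (b + 1)) hn) C hind (by
      intro y H w hw
      by_cases hH : H ∈ Hyp (Kr P b) A (p b)
      · rw [hC1 _ hH] at hw
        obtain ⟨x, hx, rfl⟩ := hw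
        rw [hsm, hC1 _ (hHyp y (hYu y.2) H hH), rep_mk]
        exact ⟨_, conj_cent hx, rfl⟩
      · rw [hC2 _ hH] at hw
        rw [(Submodule.mem_bot _).1 hw, map_zero]
        exact zero_mem _) (M.subgroupOf Y) (fun i => cj (v i * z) U)
    (fun i => VV.mk (p (b + 1)) (P (b + 1)) ⟨_, hxP i⟩) (by
      intro i
      rw [hC1 _ (hHyp _ (hvzG i) U hUH)]
      exact ⟨⟨_, hxP i⟩, hxC i, rfl⟩) (by
      intro i h
      exact hxF i (VV.mk_eq_zero.1 h)) (by
      intro i y h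
      rw [rep_fix]
      obtain ⟨⟨h1, h2⟩, -⟩ := key i i y y.2 h
      have h3 : (y : G) * x₀ = x₀ * y := hx₀S y ⟨y.2, h1, h2⟩
      have h4 : (y : G) * (v i * z) = (v i * z) * y := dk_comm h1 (hvz i)
      have h5 : (y : G) * ((v i * z) * x₀ * (v i * z)⁻¹) =
          ((v i * z) * x₀ * (v i * z)⁻¹) * y := by
        have h6 : Commute (y : G) (v i * z) := h4
        have h7 : Commute (y : G) x₀ := h3
        exact (h6.mul_right h7).mul_right h6.inv_right
      show ⁅(y : G), (v i * z) * x₀ * (v i * z)⁻¹⁆ ∈ _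
      rw [commutatorElement_eq_one_iff_mul_comm.2 h5]
      exact one_mem _) (by
      intro i j y h
      obtain ⟨⟨h1, h2⟩, h3⟩ := key i j y y.2 h
      exact ⟨mem_subgroupOf.2 (hYD ⟨y.2, h1⟩), h3⟩) (by
      rw [Nat.card_congr (subgroupOfEquivOfLe hMY).toEquiv]
      exact T.toWTow.cop_le hun (hMY.trans hYu))
  exact ⟨hFact, hn, X, hX1, hX2⟩

end Pool.Agent.Work.MP_b44cb1_al.R1
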