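import Pool.Agent.Work.MP_b44cb1_al.Full.R1.Fam
import Pool.Agent.Work.MP_b44cb1_al.Full.Kit.FrKit

/-!
# Block R1: the representation of a group normalising `P` on `P / Fr p P`
-/

set_option autoImplicit false

namespace Pool.Agent.Work.MP_b44cb1_al.R1

open Subgroup
open scoped commutatorElement

variable {G : Type*} [Group G]

instance frNormal (p : ℕ) (P : Subgroup G) : ((Fr p P).subgroupOf P).Normal :=
  (nz_fr p (nz_self P)).subgroupOf_normal

/-- `P / Fr p P`, written additively. -/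
def VV (p : ℕ) (P : Subgroup G) : Type _ := Additive (P ⧸ (Fr p P).subgroupOf P)

/-- The class of an element of `P`. -/
def VV.mk (p : ℕ) (P : Subgroup G) (x : P) : VV p P :=
  Additive.ofMul (QuotientGroup.mk x : P ⧸ (Fr p P).subgroupOf P)

theorem VV.mk_surj {p : ℕ} {P : Subgroup G} (v : VV p P) : ∃ x : P, VV.mk p P x = v := by
  obtain ⟨x, hx⟩ := QuotientGroup.mk_surjective (s := (Fr p P).subgroupOf P) (Additive.toMul v)
  exact ⟨x, by rw [VV.mk, hx]; rfl⟩

instance VV.addCommGroup (p : ℕ) (P : Subgroup G) : AddCommGroup (VV p P) :=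
  { (inferInstance : AddGroup (Additive (P ⧸ (Fr p P).subgroupOf P))) with
    add_comm := by
      intro a b
      obtain ⟨x, rfl⟩ := VV.mk_surj a
      obtain ⟨y, rfl⟩ := VV.mk_surj b
      show Additive.ofMul ((QuotientGroup.mk x : P ⧸ (Fr p P).subgroupOf P) * QuotientGroup.mk y) =
        Additive.ofMul ((QuotientGroup.mk y : P ⧸ (Fr p P).subgroupOf P) * QuotientGroup.mk x)
      rw [← QuotientGroup.mk_mul, ← QuotientGroup.mk_mul]
      congr 1
      rw [QuotientGroup.eq, mem_subgroupOf]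
      have h1 : ((x * y)⁻¹ * (y * x) : P) = (⁅(y : P)⁻¹, (x : P)⁻¹⁆ : P) := by
        rw [commutatorElement_def]
        group
      rw [h1]
      exact comm_mem_fr (inv_mem y.2) (inv_mem x.2) }

theorem VV.mk_mul (p : ℕ) (P : Subgroup G) (x y : P) :
    VV.mk p P (x * y) = VV.mk p P x + VV.mk p P y := rfl

theorem VV.mk_one (p : ℕ) (P : Subgroup G) : VV.mk p P 1 = 0 := rfl

theorem VV.mk_pow (p : ℕ) (P : Subgroup G) (x : P) (n : ℕ) :
    VV.mk p P (x ^ n) = n • VV.mk p P x := by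
  induction n with
  | zero => rw [pow_zero, VV.mk_one, zero_smul]
  | succ n ih => rw [pow_succ, VV.mk_mul, ih, succ_nsmul]

theorem VV.mk_inv (p : ℕ) (P : Subgroup G) (x : P) : VV.mk p P x⁻¹ = - VV.mk p P x := rfl

theorem VV.mk_eq {p : ℕ} {P : Subgroup G} {x y : P} :
    VV.mk p P x = VV.mk p P y ↔ (x : G)⁻¹ * y ∈ Fr p P := by
  have h : (VV.mk p P x = VV.mk p P y) ↔
      ((QuotientGroup.mk x : P ⧸ (Fr p P).subgroupOf P) = QuotientGroup.mk y) := Iff.rfl
  rw [h, QuotientGroup.eq, mem_subgroupOf]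
  rfl

theorem VV.mk_eq_zero {p : ℕ} {P : Subgroup G} {x : P} : VV.mk p P x = 0 ↔ (x : G) ∈ Fr p P := by
  rw [← VV.mk_one, eq_comm, VV.mk_eq]
  simp

theorem VV.nsmul (p : ℕ) (P : Subgroup G) (v : VV p P) : p • v = 0 := by
  obtain ⟨x, rfl⟩ := VV.mk_surj v
  rw [← VV.mk_pow, VV.mk_eq_zero]
  exact pow_mem_fr x.2

noncomputable instance VV.module (p : ℕ) (P : Subgroup G) : Module (ZMod p) (VV p P) :=
  AddCommGroup.zmodModule (VV.nsmul p P)

instance VV.finite [Finite G] (p : ℕ) (P : Subgroup G) : Finite (VV p P) :=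
  (inferInstance : Finite (P ⧸ (Fr p P).subgroupOf P))

theorem VV.card (p : ℕ) (P : Subgroup G) : Nat.card (VV p P) = (Fr p P).relIndex P := rfl

section Act

variable {Y P : Subgroup G} (p : ℕ) (hn : Nz Y P)

/-- Conjugation by `y` on `P`. -/
def cjP (y : Y) : P →* P where
  toFun x := ⟨y * x * (y : G)⁻¹, hn y y.2 x x.2⟩
  map_one' := Subtype.ext (by simp)
  map_mul' a b := Subtype.ext (by simp [mul_assoc])

/-- Conjugation by `y` on `P / Fr p P`, additively. -/
def actV (y : Y) : VV p P →+ VV p P :=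
  MonoidHom.toAdditive (QuotientGroup.map ((Fr p P).subgroupOf P) ((Fr p P).subgroupOf P)
    (cjP hn y) (fun x hx => by
      rw [mem_comap, mem_subgroupOf]
      exact nz_fr p hn y y.2 _ (mem_subgroupOf.1 hx)))

theorem actV_mk (y : Y) (x : P) : actV p hn y (VV.mk p P x) = VV.mk p P (cjP hn y x) := rfl

/-- The representation on `P / Fr p P`. -/
noncomputable def rep : Representation (ZMod p) Y (VV p P) where
  toFun y := AddMonoidHom.toZModLinearMap p (actV p hn y)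
  map_one' := by
    apply LinearMap.ext
    intro v
    obtain ⟨x, rfl⟩ := VV.mk_surj v
    show actV p hn 1 (VV.mk p P x) = VV.mk p P x
    rw [actV_mk]
    congr 1
    exact Subtype.ext (by simp [cjP])
  map_mul' a b := by
    apply LinearMap.ext
    intro v
    obtain ⟨x, rfl⟩ := VV.mk_surj v
    show actV p hn (a * b) (VV.mk p P x) = actV p hn a (actV p hn b (VV.mk p P x))
    rw [actV_mk, actV_mk, actV_mk]
    congr 1
    exact Subtype.ext (by simp [cjP, mul_assoc])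

theorem rep_mk (y : Y) (x : P) : rep p hn y (VV.mk p P x) = VV.mk p P (cjP hn y x) := rfl

theorem rep_fix {y : Y} {x : P} :
    rep p hn y (VV.mk p P x) = VV.mk p P x ↔ ⁅(y : G), (x : G)⁆ ∈ Fr p P := by
  rw [rep_mk, VV.mk_eq]
  have e : ((cjP hn y x : P) : G) = (y : G) * x * (y : G)⁻¹ := rfl
  rw [e]
  constructor
  · intro h
    have h1 := nz_fr p (nz_self P) x x.2 _ (inv_mem h)
    have e1 : (x : G) * (((y : G) * x * (y : G)⁻¹)⁻¹ * x)⁻¹ * (x : G)⁻¹ = ⁅(y : G), (x : G)⁆ := by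
      rw [commutatorElement_def]
      group
    rwa [e1] at h1
  · intro h
    have h1 := nz_fr p (nz_self P) (x : G)⁻¹ (inv_mem x.2) _ (inv_mem h)
    have e1 : (x : G)⁻¹ * ⁅(y : G), (x : G)⁆⁻¹ * ((x : G)⁻¹)⁻¹ =
        ((y : G) * x * (y : G)⁻¹)⁻¹ * x := by
      rw [commutatorElement_def]
      group
    rwa [e1] at h1

/-- The image of `W ⊓ P` in `P / Fr p P`. -/
noncomputable def sp (p : ℕ) (P W : Subgroup G) : Submodule (ZMod p) (VV p P) :=
  AddSubgroup.toZModSubmodule p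
    { carrier := {v | ∃ x : P, (x : G) ∈ W ∧ VV.mk p P x = v}
      zero_mem' := ⟨1, one_mem _, rfl⟩
      add_mem' := by
        rintro _ _ ⟨x, hx, rfl⟩ ⟨y, hy, rfl⟩
        exact ⟨x * y, mul_mem hx hy, rfl⟩
      neg_mem' := by
        rintro _ ⟨x, hx, rfl⟩
        exact ⟨x⁻¹, inv_mem hx, rfl⟩ }

theorem mem_sp {p : ℕ} {P W : Subgroup G} {v : VV p P} :
    v ∈ sp p P W ↔ ∃ x : P, (x : G) ∈ W ∧ VV.mk p P x = v := Iff.rfl

theorem sp_mono {p : ℕ} {P W W' : Subgroup G} (h : W ≤ W') : sp p P W ≤ sp p P W' := by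
  rintro v ⟨x, hx, rfl⟩
  exact ⟨x, h hx, rfl⟩

theorem card_sp_le [Finite G] {p : ℕ} {P W : Subgroup G} (hW : W ≤ P) :
    Nat.card (sp p P W) ≤ (Fr p P).relIndex W := by
  let f : W ⧸ (Fr p P).subgroupOf W → sp p P W :=
    Quotient.lift (fun w : W => (⟨VV.mk p P ⟨w, hW w.2⟩, ⟨w, hW w.2⟩, w.2, rfl⟩ : sp p P W)) (by
      intro a b hab
      apply Subtype.ext
      show VV.mk p P ⟨a, hW a.2⟩ = VV.mk p P ⟨b, hW b.2⟩
      rw [VV.mk_eq]
      have h1 := QuotientGroup.leftRel_apply.1 hab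
      exact mem_subgroupOf.1 h1)
  refine Nat.card_le_card_of_surjective f ?_
  rintro ⟨v, x, hx, rfl⟩
  exact ⟨QuotientGroup.mk ⟨x, hx⟩, rfl⟩

end Act

end Pool.Agent.Work.MP_b44cb1_al.R1
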