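import Pool.Agent.Work.MP_b44cb1_al.Full.R1.Link
import Pool.Agent.Work.MP_b44cb1_al.Full.Kit.Reg

/-!
# Block R1: families of vectors, and dimensions
-/

set_option autoImplicit false

namespace Pool.Agent.Work.MP_b44cb1_al.R1

open Subgroup
open scoped commutatorElement

variable {G : Type*} [Group G] {P : ℕ → Subgroup G} {p : ℕ → ℕ} {n : ℕ}

theorem rep_mk_eq {Y Q : Subgroup G} {q : ℕ} {hn : Nz Y Q} {y : Y} {x x' : Q} :
    rep q hn y (VV.mk q Q x) = VV.mk q Q x' ↔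
      (x' : G)⁻¹ * (y * x * (y : G)⁻¹) ∈ Fr q Q := by
  rw [rep_mk, eq_comm, VV.mk_eq]
  rfl

theorem rep_one_dk [Finite G] (T : WTow P p n) {u : ℕ} (hun : u < n) {Y : Subgroup G}
    (hYG : Y ≤ Gs P u) {hn : Nz Y (P u)} {y : Y} (h : rep (p u) hn y = 1) : (y : G) ∈ Dk P u := by
  refine T.mem_dk (k5p G) hun (hYG y.2) fun v hv => ?_
  have h1 : rep (p u) hn y (VV.mk (p u) (P u) ⟨v, hv⟩) = VV.mk (p u) (P u) ⟨v, hv⟩ := by
    rw [h]; rfl
  exact rep_fix (p u) hn |>.1 h1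

theorem fam_step [Finite G] (T : MTow P p n) (hodd : ∀ i < n, 2 < p i) {u : ℕ} (hun : u < n)
    {Y M : Subgroup G} (hYG : Y ≤ Gs P u) (hY : Group.IsNilpotent Y) (hMY : M ≤ Y)
    (hYM : Nz Y M) {k : ℕ} (hk : 0 < k) (h : IndT P p u Y M k) :
    FamT P p u Y (2 ^ (M.relIndex Y * k - 1)) := by
  obtain ⟨hF, hn, X, hX1, hX2⟩ := h
  have hpu := T.prime u hun
  have hYodd : Odd (Nat.card Y) := by
    obtain ⟨m, hm⟩ := Subgroup.card_dvd_of_le hYG
    have h1 := gs_odd T.toWTow hodd (c := u) hun.le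
    rw [hm] at h1
    exact Nat.Odd.of_mul_left h1
  obtain ⟨v, hv, hvY⟩ := reg_fr hpu (hodd u hun).ne' Y (P u) hY hYodd (T.toWTow.cop_le hun hYG) hn
  have hMn : (M.subgroupOf Y).Normal := hYM.subgroupOf_normal
  obtain ⟨w, hw⟩ := fam_of_ind (rep (p u) hn) (hodd u hun).ne' (M.subgroupOf Y) hk X hX1 hX2
    (VV.mk (p u) (P u) ⟨v, hv⟩) (by
      intro y hy
      rw [rep_fix] at hy
      apply LinearMap.ext
      intro x
      obtain ⟨x, rfl⟩ := VV.mk_surj x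
      exact (rep_fix (p u) hn).2 (hvY y y.2 hy x x.2)) (by
      rw [Nat.card_congr (subgroupOfEquivOfLe hMY).toEquiv]
      exact T.toWTow.cop_le hun (hMY.trans hYG))
  choose x hx using fun i => VV.mk_surj (w i)
  refine ⟨fun i => x i, fun i => (x i).2, ?_⟩
  intro i j y hy h
  have h1 : rep (p u) hn ⟨y, hy⟩ (w i) = w j := by
    rw [← hx i, ← hx j, rep_mk_eq]
    exact h
  obtain ⟨h2, h3⟩ := hw i j ⟨y, hy⟩ h1
  exact ⟨rep_one_dk T.toWTow hun hYG h2, h3⟩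

theorem fam_start [Finite G] (T : MTow P p n) (hodd : ∀ i < n, 2 < p i) {u : ℕ} (hun : u < n)
    {Y : Subgroup G} (hYG : Y ≤ Gs P u) (hY : Group.IsNilpotent Y) : FamT P p u Y 1 := by
  have hpu := T.prime u hun
  have hYodd : Odd (Nat.card Y) := by
    obtain ⟨m, hm⟩ := Subgroup.card_dvd_of_le hYG
    have h1 := gs_odd T.toWTow hodd (c := u) hun.le
    rw [hm] at h1
    exact Nat.Odd.of_mul_left h1
  have hn : Nz Y (P u) := (T.norm u hun).mono hYG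
  obtain ⟨v, hv, hvY⟩ := reg_fr hpu (hodd u hun).ne' Y (P u) hY hYodd (T.toWTow.cop_le hun hYG) hn
  refine ⟨fun _ => v, fun _ => hv, fun i j y hy h => ⟨?_, Subsingleton.elim i j⟩⟩
  refine T.toWTow.mem_dk (k5p G) hun (hYG hy) fun w hw => hvY y hy ?_ w hw
  have h1 := nz_fr (p u) (nz_self (P u)) v hv _ h
  have e1 : v * (v⁻¹ * (y * v * y⁻¹)) * v⁻¹ = ⁅y, v⁆ := by
    rw [commutatorElement_def]
    group
  rwa [e1] at h1

theorem dim_step [Finite G] (T : MTow P p n) {u : ℕ} (hun : u < n) {Y M Q : Subgroup G}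
    (hYG : Y ≤ Gs P u) (hMY : M ≤ Y) (hYM : Nz Y M) (hQY : Q ≤ Y) (hsup : Y ≤ Q ⊔ M) {k : ℕ}
    (h : IndT P p u Y M k) : p u ^ ((M.relIndex Y - 1) * k) ≤
      (Fr (p u) (P u)).relIndex ⁅P u ⊓ centralizer (M : Set G), Q⁆ := by
  obtain ⟨hF, hn, X, hX1, hX2⟩ := h
  have hpu := T.prime u hun
  have hMn : Nz M (P u) := hn.mono hMY
  have hle : ⁅P u ⊓ centralizer (M : Set G), Q⁆ ≤ P u :=
    (commutator_mono inf_le_left le_rfl).trans (comm_le_left (hn.mono hQY))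
  refine le_trans ?_ (card_sp_le hle)
  refine dim_of_ind (rep (p u) hn) (M.subgroupOf Y) X hX1 hX2
    (sp (p u) (P u) ⁅P u ⊓ centralizer (M : Set G), Q⁆) ?_
  intro i y
  -- lift `X i`
  obtain ⟨x, hx⟩ := VV.mk_surj (X i)
  obtain ⟨x', hx', hx'M, hxx⟩ := liftC hpu (P u) (Fr (p u) (P u)) M (T.pgrp u hun) (fr_le _ _)
    (nz_fr _ (nz_self _)) hMn (nz_fr _ hMn) (T.toWTow.cop_le hun (hMY.trans hYG)) x x.2 (by
      intro m hm
      have h1 := hX1 i ⟨m, hMY hm⟩ (mem_subgroupOf.2 hm)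
      rw [← hx, rep_fix] at h1
      exact h1)
  have hxX : VV.mk (p u) (P u) ⟨x', hx'⟩ = X i := by
    rw [← hx, eq_comm, VV.mk_eq]
    exact hxx
  -- write `y = q * m`
  have hy := hsup y.2
  rw [← SetLike.mem_coe, coe_mul_of_left_le_normalizer_right Q M
    ((nz_iff.1 hYM).trans' hQY)] at hy
  obtain ⟨q, hq, m, hm, hqm⟩ := hy
  have hqm' : q * m = (y : G) := hqm
  have hyq : y = ⟨q, hQY hq⟩ * ⟨m, hMY hm⟩ := Subtype.ext hqm'.symm
  rw [hyq, map_mul, Module.End.mul_apply, hX1 i _ (mem_subgroupOf.2 hm), ← hxX, rep_mk]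
  refine ⟨⟨⁅q, x'⁆, ?_⟩, ?_, ?_⟩
  · rw [commutatorElement_def]
    exact mul_mem (hn q (hQY hq) x' hx') (inv_mem hx')
  · show ⁅q, x'⁆ ∈ _
    rw [← commutatorElement_inv]
    exact inv_mem (commutator_mem_commutator ⟨hx', mem_centralizer_iff.2 fun m hm =>
      hx'M m hm⟩ hq)
  · rw [sub_eq_add_neg, ← VV.mk_inv, ← VV.mk_mul]
    rfl

end Pool.Agent.Work.MP_b44cb1_al.R1
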